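import Pool.Graph.R_seed8.Helper697.RepFinal

set_option autoImplicit false
set_option linter.all false

namespace Pool.Agent.KS6_13.RC

open Pool.Agent.Helper697.Rep

/-- partitions into `k` pieces, not all of the same area -/
def PartN (k : ℕ) (P : Finset (ℤ × ℤ)) : Prop :=
  ∃ Q : Finset (Finset (ℤ × ℤ)), Q.card = k ∧ (∀ A ∈ Q, Piece A) ∧
    (∀ A ∈ Q, ∀ B ∈ Q, A ≠ B → Disjoint A B) ∧ Q.biUnion id = P ∧
    ∃ A ∈ Q, ∃ B ∈ Q, A.card ≠ B.card

theorem PartN.pair {A B : Finset (ℤ × ℤ)} (hA : Piece A) (hB : Piece B) (hd : Disjoint A B)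
    (hc : A.card ≠ B.card) : PartN 2 (A ∪ B) := by
  have hne : A ≠ B := fun h => hc (by rw [h])
  refine ⟨{A, B}, Finset.card_pair hne, ?_, ?_, ?_, A, by simp, B, by simp, hc⟩
  · intro C hC
    simp only [Finset.mem_insert, Finset.mem_singleton] at hC
    rcases hC with rfl | rfl
    · exact hA
    · exact hB
  · intro C hC D hD hCD
    simp only [Finset.mem_insert, Finset.mem_singleton] at hC hD
    rcases hC with rfl | rfl <;> rcases hD with rfl | rfl
    · exact absurd rfl hCD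
    · exact hd
    · exact hd.symm
    · exact absurd rfl hCD
  · simp

theorem PartN.union {a b : ℕ} {P P' : Finset (ℤ × ℤ)} (h : PartN a P) (h' : Part b P')
    (hd : Disjoint P P') : PartN (a + b) (P ∪ P') := by
  obtain ⟨Q, q1, q2, q3, q4, A₀, hA₀, B₀, hB₀, hne⟩ := h
  obtain ⟨Q', r1, r2, r3, r4⟩ := h'
  have hsub : ∀ A ∈ Q, A ⊆ P := by
    intro A hA; rw [← q4]; exact Finset.subset_biUnion_of_mem id hA
  have hsub' : ∀ A ∈ Q', A ⊆ P' := by
    intro A hA; rw [← r4]; exact Finset.subset_biUnion_of_mem id hA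
  have hdis : ∀ A ∈ Q, ∀ B ∈ Q', Disjoint A B := fun A hA B hB =>
    hd.mono (hsub A hA) (hsub' B hB)
  have hdQ : Disjoint Q Q' := by
    rw [Finset.disjoint_left]
    intro A hA hA'
    have h1 := hdis A hA A hA'
    rw [Finset.disjoint_self_iff_empty] at h1
    have h2 := (q2 A hA).1.1
    rw [h1] at h2
    exact absurd h2 (by simp)
  refine ⟨Q ∪ Q', ?_, ?_, ?_, ?_, A₀, Finset.mem_union_left _ hA₀, B₀,
    Finset.mem_union_left _ hB₀, hne⟩
  · rw [Finset.card_union_of_disjoint hdQ, q1, r1]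
  · intro A hA
    rcases Finset.mem_union.mp hA with h | h
    · exact q2 A h
    · exact r2 A h
  · intro A hA B hB hAB
    rcases Finset.mem_union.mp hA with h | h <;> rcases Finset.mem_union.mp hB with h' | h'
    · exact q3 A h B h' hAB
    · exact hdis A h B h'
    · exact (hdis B h' A h).symm
    · exact r3 A h B h' hAB
  · rw [Finset.union_biUnion, q4, r4]

theorem PartN.shift {a : ℕ} {P : Finset (ℤ × ℤ)} (h : PartN a P) (v : ℤ × ℤ) :
    PartN a (Pool.Agent.Helper697.Rep.shift v P) := by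
  obtain ⟨Q, q1, q2, q3, q4, A₀, hA₀, B₀, hB₀, hne⟩ := h
  refine ⟨Q.image (Pool.Agent.Helper697.Rep.shift v), ?_, ?_, ?_, ?_, Pool.Agent.Helper697.Rep.shift v A₀,
    Finset.mem_image_of_mem _ hA₀, Pool.Agent.Helper697.Rep.shift v B₀, Finset.mem_image_of_mem _ hB₀, ?_⟩
  · have hinj : Function.Injective (Pool.Agent.Helper697.Rep.shift v) := Finset.map_injective (sh v)
    rw [Finset.card_image_of_injective _ hinj, q1]
  · intro A hA
    obtain ⟨B, hB, rfl⟩ := Finset.mem_image.mp hA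
    exact (q2 B hB).shift v
  · intro A hA B hB hAB
    obtain ⟨A', hA', rfl⟩ := Finset.mem_image.mp hA
    obtain ⟨B', hB', rfl⟩ := Finset.mem_image.mp hB
    have : A' ≠ B' := fun h => hAB (by rw [h])
    exact (Finset.disjoint_map _).mpr (q3 A' hA' B' hB' this)
  · rw [← q4]
    ext p
    simp only [Finset.mem_biUnion, Finset.mem_image, id, mem_shift]
    constructor
    · rintro ⟨_, ⟨B, hB, rfl⟩, hp⟩
      rw [mem_shift] at hp
      exact ⟨B, hB, hp⟩
    · rintro ⟨B, hB, hp⟩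
      exact ⟨_, ⟨B, hB, rfl⟩, by rwa [mem_shift]⟩
  · unfold Pool.Agent.Helper697.Rep.shift
    rw [Finset.card_map, Finset.card_map]
    exact hne

theorem part_threeN : PartN 3 X := by
  have h1 := (PartN.pair piece_q piece_n1 (by decide +kernel) (by decide +kernel)).union
    (Part.single piece_n4) (by decide +kernel)
  have h2 : qL.toFinset ∪ n1L.toFinset ∪ n4L.toFinset = X := by decide +kernel
  rw [h2] at h1
  exact h1

theorem part_blocksN {S : Finset (ℤ × ℤ)} {a : ℕ} (h1 : 1 ≤ a) (h2 : a ≤ S.card) :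
    PartN (6 * S.card - 3 * a) (blocks S) := by
  obtain ⟨c, hc⟩ : S.Nonempty := Finset.card_pos.1 (by omega)
  have hcard : (S.erase c).card = S.card - 1 := Finset.card_erase_of_mem hc
  have hd : Disjoint (shift (six c) X) (blocks (S.erase c)) := by
    rw [Finset.disjoint_left]
    intro p hp hp'
    rw [mem_shift_X] at hp
    rw [mem_blocks, hp] at hp'
    exact absurd hp' (by simp)
  have h3 := (part_threeN.shift (six c)).union (part_blocks (S.erase c) (a - 1) (by omega)) hd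
  rw [← blocks_insert, Finset.insert_erase hc] at h3
  have e : 6 * S.card - 3 * a = 3 + (6 * (S.erase c).card - 3 * (a - 1)) := by omega
  rw [e]
  exact h3

/-- `P` is a non-regular rep-cube of order `k`. -/
def IsNonRegular (k : ℕ) (P : Finset (ℤ × ℤ)) : Prop :=
  IsPolyomino P ∧ FoldsToCube P ∧
    ∃ Q : Finset (Finset (ℤ × ℤ)), Q.card = k ∧ (∀ A ∈ Q, IsPolyomino A ∧ FoldsToCube A) ∧
      (∀ A ∈ Q, ∀ B ∈ Q, A ≠ B → Disjoint A B) ∧ Q.biUnion id = P ∧
      ∃ A ∈ Q, ∃ B ∈ Q, A.card ≠ B.card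

theorem PartN.repCube {k : ℕ} {P : Finset (ℤ × ℤ)} (h : PartN k P) (hP : Piece P) :
    IsNonRegular k P := by
  obtain ⟨Q, q1, q2, q3, q4, q5⟩ := h
  exact ⟨hP.fin.1, hP.fin.2, Q, q1, fun A hA => (q2 A hA).fin, q3, q4, q5⟩

/-- if `k` does not divide the area, all divisions are non-regular -/
theorem nonRegular_of_not_dvd {k : ℕ} {P : Finset (ℤ × ℤ)} (h : IsRepCube k P)
    (hk : ¬ k ∣ P.card) : IsNonRegular k P := by
  obtain ⟨h1, h2, Q, q1, q2, q3, q4⟩ := h
  refine ⟨h1, h2, Q, q1, q2, q3, q4, ?_⟩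
  by_contra hcon
  push Not at hcon
  apply hk
  have hc : (Q.biUnion id).card = ∑ A ∈ Q, (id A).card :=
    Finset.card_biUnion (fun A hA B hB hAB => q3 A hA B hB hAB)
  rw [← q4, hc]
  rcases Q.eq_empty_or_nonempty with hQ | ⟨A, hA⟩
  · subst hQ
    simp at q1 ⊢
  · rw [Finset.sum_congr rfl (fun B hB => (show (id B).card = A.card from hcon B hB A hA)),
      Finset.sum_const, q1, smul_eq_mul]
    exact dvd_mul_right _ _

theorem rep_ordersN {n : ℕ} (hn : 3 ≤ n) {a b : ℕ} (hb : b ≤ 2) (ha1 : 1 ≤ a)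
    (ha : a ≤ 6 * n ^ 2 - 6 * b) :
    IsNonRegular (6 * (6 * n ^ 2 - 6 * b) - 3 * a + b) (blocks (Ct n)) := by
  obtain ⟨T, hT, hcard, hpart⟩ := exists_crosses hn b hb
  have hc : (Ct n \ T).card = 6 * n ^ 2 - 6 * b := by
    rw [Finset.card_sdiff_of_subset hT, card_Ct, hcard]
  have h1 := part_blocksN (S := Ct n \ T) ha1 (by rw [hc]; exact ha)
  rw [hc] at h1
  have h2 := h1.union hpart (blocks_disjoint Finset.sdiff_disjoint)
  rw [← blocks_union, Finset.sdiff_union_of_subset hT] at h2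
  exact h2.repCube (piece_cube (by omega))

theorem nonRegular (k : ℕ) (hk : 287 < k) : ∃ P, IsNonRegular k P := by
  set n := Nat.sqrt (k / 18) with hn
  have h1 : n * n ≤ k / 18 := Nat.sqrt_le (k / 18)
  have h2 : k / 18 < (n + 1) * (n + 1) := Nat.lt_succ_sqrt (k / 18)
  have h4 : 4 ≤ n := by
    rw [hn]
    exact Nat.le_sqrt.mpr (by omega)
  have h1' : 18 * n ^ 2 ≤ k := by
    have : n ^ 2 = n * n := by ring
    omega
  have h2' : k < 18 * n ^ 2 + 36 * n + 18 := by
    have : (n + 1) * (n + 1) = n ^ 2 + 2 * n + 1 := by ring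
    omega
  have h5 : 4 * n ≤ n ^ 2 := by nlinarith
  have h6 : k ≤ 36 * n ^ 2 - 70 := by
    have : 16 ≤ n ^ 2 := by nlinarith
    omega
  have h7 : 16 ≤ n ^ 2 := by nlinarith
  by_cases ha : 1 ≤ (36 * n ^ 2 - 35 * (k % 3) - k) / 3
  · have := rep_ordersN (n := n) (by omega) (a := (36 * n ^ 2 - 35 * (k % 3) - k) / 3) (b := k % 3)
      (by omega) ha (by omega)
    have e : 6 * (6 * n ^ 2 - 6 * (k % 3)) - 3 * ((36 * n ^ 2 - 35 * (k % 3) - k) / 3) + k % 3 =
        k := by
      omega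
    rw [e] at this
    exact ⟨_, this⟩
  · have := rep_orders (n := n) (by omega) (a := (36 * n ^ 2 - 35 * (k % 3) - k) / 3) (b := k % 3)
      (by omega) (by omega)
    have e : 6 * (6 * n ^ 2 - 6 * (k % 3)) - 3 * ((36 * n ^ 2 - 35 * (k % 3) - k) / 3) + k % 3 =
        k := by
      omega
    rw [e] at this
    refine ⟨_, nonRegular_of_not_dvd this ?_⟩
    rw [card_blocks, card_Ct]
    intro hd
    have hk2 : k = 36 * n ^ 2 - 70 := by omega
    have e2 : 36 * (6 * n ^ 2) = k * 6 + 420 := by omega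
    rw [e2] at hd
    have h8 : k ∣ 420 := (Nat.dvd_add_right (dvd_mul_right k 6)).1 hd
    have h9 : k ≤ 420 := Nat.le_of_dvd (by norm_num) h8
    obtain ⟨m, hm⟩ := h8
    have hm1 : m = 1 := by
      rcases m with _ | _ | m
      · omega
      · rfl
      · nlinarith
    subst hm1
    omega

theorem nonRegular160 (k : ℕ) (hk : 160 ≤ k) : ∃ P, IsNonRegular k P := by
  by_cases h4 : 287 < k
  · exact nonRegular k h4
  · by_cases h5 : k % 3 = 2 ∧ 251 < k
    · have h := rep_ordersN (n := 4) (by omega) (a := (506 - k) / 3) (b := 2) (by omega) (by omega)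
        (by omega)
      have e : 6 * (6 * 4 ^ 2 - 6 * 2) - 3 * ((506 - k) / 3) + 2 = k := by omega
      rw [e] at h
      exact ⟨_, h⟩
    · have h := rep_ordersN (n := 3) (by omega) (a := (324 - 35 * (k % 3) - k) / 3) (b := k % 3)
        (by omega) (by omega) (by omega)
      have e : 6 * (6 * 3 ^ 2 - 6 * (k % 3)) - 3 * ((324 - 35 * (k % 3) - k) / 3) + k % 3 = k := by
        omega
      rw [e] at h
      exact ⟨_, h⟩

theorem simultaneous (n : ℕ) (hn : 3 ≤ n) : ∃ P : Finset (ℤ × ℤ), P.card = 216 * n ^ 2 ∧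
    ∀ k, 18 * n ^ 2 ≤ k → k + 73 ≤ 36 * n ^ 2 → IsNonRegular k P := by
  refine ⟨blocks (Ct n), by rw [card_blocks, card_Ct]; ring, fun k h1 h2 => ?_⟩
  have h7 : 9 ≤ n ^ 2 := by nlinarith
  have h := rep_ordersN (n := n) hn (a := (36 * n ^ 2 - 35 * (k % 3) - k) / 3) (b := k % 3)
    (by omega) (by omega) (by omega)
  have e : 6 * (6 * n ^ 2 - 6 * (k % 3)) - 3 * ((36 * n ^ 2 - 35 * (k % 3) - k) / 3) + k % 3 =
      k := by
    omega
  rw [e] at h
  exact h

end Pool.Agent.KS6_13.RC
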